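import Mathlib
import Pool.Agent.Lib.MP_5babb6_co.Final

set_option autoImplicit false

namespace Pool.Agent.Results.MP_5babb6_co.BoundedAlpha

/-- Let `r, s ≥ 1`, and let `G` be a finite graph all of whose independent sets have at most `a`
vertices, where `4 r a ≤ s + 3 r + 1`. If `G` is not `(r + s - 1)`-colourable, then `G` has a
`K_{r,s}` minor, given by `r + s` disjoint connected vertex sets; moreover the first `r` sets can be
chosen pairwise adjacent and the last `s` sets can be chosen to be single vertices. -/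
theorem result :
    ∀ r s a : ℕ, 0 < r → 0 < s → 4 * r * a ≤ s + 3 * r + 1 →
      ∀ (V : Type) [Fintype V] (G : SimpleGraph V),
        (∀ I : Finset V, G.IsIndepSet (I : Set V) → I.card ≤ a) →
        ¬ G.Colorable (r + s - 1) →
        ∃ f : Fin r ⊕ Fin s → Set V,
          (∀ i, (G.induce (f i)).Connected) ∧
          Pairwise (fun i j => Disjoint (f i) (f j)) ∧
          (∀ a : Fin r, ∀ b : Fin s,
            ∃ x ∈ f (Sum.inl a), ∃ y ∈ f (Sum.inr b), G.Adj x y) ∧
          (∀ a a' : Fin r, a ≠ a' →
            ∃ x ∈ f (Sum.inl a), ∃ y ∈ f (Sum.inl a'), G.Adj x y) ∧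
          ∀ b : Fin s, ∃ v : V, f (Sum.inr b) = {v} := by
  intro r s a hr hs h V _ G ha hcol
  exact Lib.MP_5babb6_co.model_of_star
    (Lib.MP_5babb6_co.bounded_alpha G r s a hr hs h ha hcol)

end Pool.Agent.Results.MP_5babb6_co.BoundedAlpha
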