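import Mathlib
import Pool.Agent.Lib.MP_5babb6_co.W.Thm

set_option autoImplicit false

namespace Pool.Agent.Results.MP_5babb6_co.ThresholdRLogR

/-- There is an absolute constant `K > 0` such that for all `r, s ≥ 1` with
`s ≥ K r log (r + 1)` every finite graph `G` which is not `(r + s - 1)`-colourable has a `K_{r,s}`
minor, given by `r + s` disjoint connected vertex sets; moreover the first `r` sets can be chosen
pairwise adjacent. -/
theorem result :
    ∃ K : ℝ, 0 < K ∧ ∀ r s : ℕ, 0 < r → 0 < s → K * r * Real.log (r + 1) ≤ s →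
      ∀ (V : Type) [Fintype V] (G : SimpleGraph V), ¬ G.Colorable (r + s - 1) →
        ∃ f : Fin r ⊕ Fin s → Set V,
          (∀ i, (G.induce (f i)).Connected) ∧
          Pairwise (fun i j => Disjoint (f i) (f j)) ∧
          (∀ a : Fin r, ∀ b : Fin s,
            ∃ x ∈ f (Sum.inl a), ∃ y ∈ f (Sum.inr b), G.Adj x y) ∧
          ∀ a a' : Fin r, a ≠ a' →
            ∃ x ∈ f (Sum.inl a), ∃ y ∈ f (Sum.inl a'), G.Adj x y :=
  Lib.MP_5babb6_co.W.thm

end Pool.Agent.Results.MP_5babb6_co.ThresholdRLogR
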